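import Pool.Agent.Helper44.CM.StmtsB5

/-!
# Project MM, block B5, row DIFFEQ

The differentiated moment map equation. Also: the derivative of `log det` along a line, the
commutation of partial derivatives, the derivative of the Euler operator.
-/

open MeasureTheory

namespace CM66

open CM

/-- Derivative of the determinant along a curve of matrices. -/
theorem hasDerivAt_det {m : Type*} [Fintype m] [DecidableEq m] (M : ℝ → Matrix m m ℝ)
    (M' : Matrix m m ℝ) (t : ℝ) (h : ∀ i j, HasDerivAt (fun s => M s i j) (M' i j) t) :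
    HasDerivAt (fun s => (M s).det) (∑ j, ∑ i, (M t).adjugate j i * M' i j) t := by
  have h1 : ∀ σ : Equiv.Perm m, HasDerivAt (fun s => ∏ i, M s (σ i) i)
      (∑ j, (∏ i ∈ Finset.univ.erase j, M t (σ i) i) • M' (σ j) j) t := fun σ =>
    HasDerivAt.fun_finsetProd fun j _ => h (σ j) j
  have h2 := HasDerivAt.fun_sum (u := Finset.univ) fun (σ : Equiv.Perm m) _ =>
    (h1 σ).const_mul ((Equiv.Perm.sign σ : ℤ) : ℝ)
  have h3 : (fun s => (M s).det) =
      fun s => ∑ σ : Equiv.Perm m, ((Equiv.Perm.sign σ : ℤ) : ℝ) * ∏ i, M s (σ i) i := by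
    funext s; rw [Matrix.det_apply']
  rw [h3]
  have h4 : ∀ j, ∑ i, (M t).adjugate j i * M' i j =
      ∑ σ : Equiv.Perm m, ((Equiv.Perm.sign σ : ℤ) : ℝ) *
        ((∏ i ∈ Finset.univ.erase j, M t (σ i) i) * M' (σ j) j) := by
    intro j
    have e1 : ∑ i, (M t).adjugate j i * M' i j = ((M t).updateCol j fun i => M' i j).det := by
      rw [← Matrix.cramer_apply, Matrix.cramer_eq_adjugate_mulVec]
      rfl
    rw [e1, Matrix.det_apply']
    refine Finset.sum_congr rfl fun σ _ => ?_
    congr 1
    rw [← Finset.prod_erase_mul _ _ (Finset.mem_univ j)]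
    congr 1
    · refine Finset.prod_congr rfl fun i hi => ?_
      rw [Matrix.updateCol_ne (Finset.ne_of_mem_erase hi)]
    · rw [Matrix.updateCol_self]
  have h5 : ∑ j, ∑ i, (M t).adjugate j i * M' i j =
      ∑ σ : Equiv.Perm m, ((Equiv.Perm.sign σ : ℤ) : ℝ) *
        ∑ j, (∏ i ∈ Finset.univ.erase j, M t (σ i) i) • M' (σ j) j := by
    rw [Finset.sum_congr rfl fun j _ => h4 j, Finset.sum_comm]
    refine Finset.sum_congr rfl fun σ _ => ?_
    rw [Finset.mul_sum]
    simp only [smul_eq_mul]
  rw [h5]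
  exact h2

/-- Derivative of `log det` along a curve of matrices. -/
theorem hasDerivAt_logdet {n : ℕ} (M : ℝ → Mt n) (M' : Mt n) (t : ℝ)
    (h : ∀ i j, HasDerivAt (fun s => M s i j) (M' i j) t) (hs : ∀ i j, M' i j = M' j i)
    (h0 : (M t).det ≠ 0) :
    HasDerivAt (fun s => Real.log (M s).det) (tr2 (M t)⁻¹ M') t := by
  have h1 := (hasDerivAt_det M M' t h).log h0
  convert h1 using 1
  unfold tr2
  rw [Finset.sum_div]
  refine Finset.sum_congr rfl fun j _ => ?_
  rw [Finset.sum_div]
  refine Finset.sum_congr rfl fun i _ => ?_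
  rw [Matrix.inv_def, Matrix.smul_apply, smul_eq_mul, Ring.inverse_eq_inv', hs j i]
  field_simp

/-- A matrix with positive quadratic form is invertible. -/
theorem det_ne_zero_of_LB {n : ℕ} {a : ℝ} (ha : 0 < a) {M : Mt n} (h : LB a M) : M.det ≠ 0 := by
  intro h0
  obtain ⟨v, hv, hv2⟩ := Matrix.exists_mulVec_eq_zero_iff.mpr h0
  have h1 := h v
  have h2 : ∑ i, ∑ j, v i * M i j * v j = 0 := by
    have e : ∀ i, ∑ j, v i * M i j * v j = v i * (M.mulVec v) i := by
      intro i
      rw [Matrix.mulVec, dotProduct, Finset.mul_sum]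
      exact Finset.sum_congr rfl fun j _ => by ring
    rw [Finset.sum_congr rfl fun i _ => e i, hv2]
    simp
  rw [h2] at h1
  have h3 : ∑ i, v i ^ 2 = 0 := by
    have := Finset.sum_nonneg fun i (_ : i ∈ Finset.univ) => sq_nonneg (v i)
    nlinarith
  apply hv
  funext i
  have h4 := (Finset.sum_eq_zero_iff_of_nonneg fun i _ => sq_nonneg (v i)).mp h3 i
    (Finset.mem_univ i)
  simpa using h4

/-- The partial derivative is the derivative along a coordinate line. -/
theorem hasDerivAt_line {n : ℕ} {f : E n → ℝ} {x : E n} (hf : DifferentiableAt ℝ f x)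
    (i : Fin n) :
    HasDerivAt (fun t : ℝ => f (x + t • EuclideanSpace.single i (1 : ℝ))) (pd i f x) 0 := by
  have h1 : HasDerivAt (fun t : ℝ => x + t • EuclideanSpace.single i (1 : ℝ))
      (EuclideanSpace.single i (1 : ℝ)) 0 := by
    simpa using ((hasDerivAt_id (0 : ℝ)).smul_const (EuclideanSpace.single i (1 : ℝ))).const_add x
  have h2 : HasFDerivAt f (fderiv ℝ f x)
      ((fun t : ℝ => x + t • EuclideanSpace.single i (1 : ℝ)) 0) := by
    simpa using hf.hasFDerivAt
  exact h2.comp_hasDerivAt 0 h1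

/-- Iterated `fderiv` in two fixed directions. -/
theorem fderiv_fderiv_apply {n : ℕ} {f : E n → ℝ} (hf : ContDiff ℝ 2 f) (x a b : E n) :
    fderiv ℝ (fun y => fderiv ℝ f y a) x b = fderiv ℝ (fderiv ℝ f) x b a := by
  have h1 : DifferentiableAt ℝ (fderiv ℝ f) x :=
    ((hf.fderiv_right (m := 1) (by norm_num)).differentiable (by norm_num)) x
  rw [fderiv_clm_apply h1 (differentiableAt_const a)]
  simp

theorem fderiv_symm {n : ℕ} {f : E n → ℝ} (hf : ContDiff ℝ 2 f) (x a b : E n) :
    fderiv ℝ (fderiv ℝ f) x a b = fderiv ℝ (fderiv ℝ f) x b a :=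
  (hf.contDiffAt.isSymmSndFDerivAt (by simp)) a b

/-- Partial derivatives commute. -/
theorem pd_comm {n : ℕ} {f : E n → ℝ} (hf : ContDiff ℝ 2 f) (i j : Fin n) :
    pd i (pd j f) = pd j (pd i f) := by
  funext x
  unfold pd
  rw [fderiv_fderiv_apply hf, fderiv_fderiv_apply hf, fderiv_symm hf]

theorem contDiff_pd {n : ℕ} {f : E n → ℝ} (k : ℕ) (hf : ContDiff ℝ (k + 1 : ℕ) f) (i : Fin n) :
    ContDiff ℝ k (pd i f) := by
  unfold pd
  exact (hf.fderiv_right (m := k) (by norm_cast)).clm_apply contDiff_const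

/-- Derivative of the Euler operator. -/
theorem pd_eul {n : ℕ} {f : E n → ℝ} (hf : ContDiff ℝ 2 f) (i : Fin n) (x : E n) :
    pd i (eul f) x = pd i f x + eul (pd i f) x := by
  have h1 : DifferentiableAt ℝ (fderiv ℝ f) x :=
    ((hf.fderiv_right (m := 1) (by norm_num)).differentiable (by norm_num)) x
  unfold eul pd
  rw [fderiv_clm_apply h1 differentiableAt_fun_id, fderiv_fderiv_apply hf, fderiv_symm hf]
  simp

theorem differentiable_eul {n : ℕ} {f : E n → ℝ} (hf : ContDiff ℝ 2 f) :
    Differentiable ℝ (eul f) := by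
  have h1 : Differentiable ℝ (fderiv ℝ f) :=
    (hf.fderiv_right (m := 1) (by norm_num)).differentiable (by norm_num)
  unfold eul
  exact h1.clm_apply differentiable_id

/-- The Hessian of a partial derivative is the partial derivative of the Hessian. -/
theorem hess_pd {n : ℕ} {f : E n → ℝ} (hf : ContDiff ℝ 3 f) (i a b : Fin n) (x : E n) :
    hess (pd i f) x a b = pd i (pd a (pd b f)) x := by
  have h2 : ContDiff ℝ 2 f := hf.of_le (by norm_num)
  have hb : ContDiff ℝ 2 (pd b f) := by
    have := contDiff_pd 2 (by exact_mod_cast hf) b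
    exact_mod_cast this
  rw [hess, Matrix.of_apply, pd_comm h2 b i, pd_comm hb i a]

/-- Derivative of `log det` of the Hessian. -/
theorem hasDerivAt_logdet_hess {n : ℕ} {V : E n → ℝ} (hV : ContDiff ℝ 3 V) (i : Fin n) (x : E n)
    (h0 : (hess V x).det ≠ 0) :
    HasDerivAt (fun t : ℝ => Real.log (hess V (x + t • EuclideanSpace.single i (1 : ℝ))).det)
      (tr2 (tau V x) (hess (pd i V) x)) 0 := by
  have hx : x + (0 : ℝ) • EuclideanSpace.single i (1 : ℝ) = x := by simp
  have hi : ContDiff ℝ 2 (pd i V) := by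
    have := contDiff_pd 2 (by exact_mod_cast hV) i
    exact_mod_cast this
  have h1 := hasDerivAt_logdet (fun t : ℝ => hess V (x + t • EuclideanSpace.single i (1 : ℝ)))
    (hess (pd i V) x) 0 (fun a b => ?_) (fun a b => ?_) (by simpa [hx] using h0)
  · simp only [hx] at h1
    exact h1
  · have hd : ContDiff ℝ 1 (pd a (pd b V)) := by
      have h2 := contDiff_pd 2 (by exact_mod_cast hV) b
      have h3 := contDiff_pd 1 (by exact_mod_cast h2) a
      exact_mod_cast h3
    have h4 := hasDerivAt_line (hd.differentiable (by norm_num) x) i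
    rw [hess_pd hV]
    simpa [hess] using h4
  · simp only [hess, Matrix.of_apply]
    rw [pd_comm hi a b]

theorem pd_qn {n : ℕ} (i : Fin n) (x : E n) : pd i (qn : E n → ℝ) x = x i := by
  have h1 : HasFDerivAt (qn : E n → ℝ) ((1 / 2 : ℝ) • (2 • (innerSL ℝ x))) x := by
    have h2 := (hasStrictFDerivAt_norm_sq x).hasFDerivAt.const_mul (1 / 2 : ℝ)
    have e : (qn : E n → ℝ) = fun y => (1 / 2 : ℝ) * ‖y‖ ^ 2 := by
      funext y; unfold qn; ring
    rw [e]
    exact h2
  unfold pd
  rw [h1.fderiv]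
  simp [EuclideanSpace.inner_single_right]

theorem differentiable_qn {n : ℕ} : Differentiable ℝ (qn : E n → ℝ) := by
  have e : (qn : E n → ℝ) = fun y => (1 / 2 : ℝ) * ‖y‖ ^ 2 := by
    funext y; unfold qn; ring
  rw [e]
  intro x
  exact ((hasStrictFDerivAt_norm_sq x).hasFDerivAt.const_mul (1 / 2 : ℝ)).differentiableAt

end CM66

namespace CM

open CM66

theorem st_DIFFEQ : ST_DIFFEQ := by
  intro n F V i hF hS x
  obtain ⟨M, hM⟩ := hS.reg
  obtain ⟨a, ha, hpos⟩ := hS.pos
  have hV5 : ContDiff ℝ 5 V := by exact_mod_cast hM.1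
  have hV3 : ContDiff ℝ 3 V := hV5.of_le (by norm_num)
  have hV2 : ContDiff ℝ 2 V := hV5.of_le (by norm_num)
  have hdet := det_ne_zero_of_LB ha (hpos x)
  -- derivative of the equation along the line
  have hV1 : DifferentiableAt ℝ V x := hV2.differentiable (by norm_num) x
  have d1 := hasDerivAt_line (differentiable_eul hV2 x) i
  have d2 := hasDerivAt_line hV1 i
  have d3 := hasDerivAt_logdet_hess hV3 i x hdet
  have d4 := (d1.sub d2).sub d3
  have d5 := (hasDerivAt_line (differentiable_qn x) i).add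
    (hasDerivAt_line (hF.differentiable (by norm_num) x) i)
  have d6 : (fun t : ℝ => eul V (x + t • EuclideanSpace.single i (1 : ℝ)) -
      V (x + t • EuclideanSpace.single i (1 : ℝ)) -
      Real.log (hess V (x + t • EuclideanSpace.single i (1 : ℝ))).det) =
      fun t : ℝ => qn (x + t • EuclideanSpace.single i (1 : ℝ)) +
        F (x + t • EuclideanSpace.single i (1 : ℝ)) := by
    funext t
    exact hS.eq _
  have d7 : HasDerivAt (fun t : ℝ => qn (x + t • EuclideanSpace.single i (1 : ℝ)) +
        F (x + t • EuclideanSpace.single i (1 : ℝ)))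
      (pd i (eul V) x - pd i V x - tr2 (tau V x) (hess (pd i V) x)) 0 := by
    rw [← d6]
    exact d4
  have key := d7.unique d5
  rw [pd_eul hV2, pd_qn] at key
  -- the affine correction
  have hi : ContDiff ℝ 2 (pd i V) := by
    have := contDiff_pd 2 (by exact_mod_cast hV3) i
    exact_mod_cast this
  have hlin : ∀ y : E n, HasFDerivAt (fun y : E n => y i) (EuclideanSpace.proj i : E n →L[ℝ] ℝ) y :=
    fun y => (EuclideanSpace.proj i : E n →L[ℝ] ℝ).hasFDerivAt
  have hi1 : Differentiable ℝ (pd i V) := hi.differentiable (by norm_num)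
  have e1 : ∀ y, fderiv ℝ (fun y => pd i V y - y i) y =
      fderiv ℝ (pd i V) y - (EuclideanSpace.proj i : E n →L[ℝ] ℝ) := by
    intro y
    exact ((hi1 y).hasFDerivAt.sub (hlin y)).fderiv
  have e2 : eul (fun y => pd i V y - y i) x = eul (pd i V) x - x i := by
    unfold eul
    rw [e1]
    simp
  have e3 : ∀ a b, hess (fun y => pd i V y - y i) x a b = hess (pd i V) x a b := by
    intro a b
    simp only [hess, Matrix.of_apply]
    have e4 : pd b (fun y => pd i V y - y i) = fun y => pd b (pd i V) y -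
        (EuclideanSpace.proj i : E n →L[ℝ] ℝ) (EuclideanSpace.single b (1 : ℝ)) := by
      funext y
      unfold pd
      have := e1 y
      unfold pd at this
      rw [this]
      simp
    rw [e4]
    unfold pd
    rw [fderiv_sub_const]
  have e5 : tr2 (tau V x) (hess (fun y => pd i V y - y i) x) =
      tr2 (tau V x) (hess (pd i V) x) := by
    unfold tr2
    refine Finset.sum_congr rfl fun a _ => Finset.sum_congr rfl fun b _ => ?_
    rw [e3]
  simp only [AK, LL]
  rw [e2, e5]
  linarith

end CM
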